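import Pool.Agent.Lib.TGJ.R13d
import Pool.Agent.Lib.TGJ.R13coord
import Pool.Agent.Lib.TGJ.DivS
import Pool.Agent.Lib.TG_h81.Loc3
import Pool.Agent.Lib.TGJ_h11.ExD

/-!
# TANK G, block C, R13 (c): the prime divisors of PROJ are prime divisors of the models

`v` a prime divisor of `Spec k[b, z]` (`TG.PDiv`), `K` finite over `k(b, z)`.
* `pdiv_isDiv` : `v` is a prime divisor of the normalisation of `k[b, z]`;
* `pdiv_isDiv_NV` : `v` is a prime divisor of every local ring `NV V W` of the normalised model `W`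
  with `V ≤ v`, if `b`, `z` are the affine coordinates of a finite projection;
* `pdiv_unr_finite` : only finitely many of them are ramified.
-/

set_option autoImplicit false

namespace Pool.Agent.TG21

open Pool.Agent.TGJ
open Pool.Agent.LU2 (locV le_locV)
open Pool.Agent.TG (ncl Ov ZDim IsMin IsModel NV RV LB KB PDiv LocOf Abz tt valg le_ncl ncl_mem)
open Pool.Agent.TGh4 (Disc ordV)
open Pool.Agent.TG51 (InLoc valP mem_valP valuation_lt_one_iff height_eq_one_of_forall
  eq_valP_of_le)

universe u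

section PD

variable {k K : Type u} [Field k] [Field K] [Algebra k K] {m : ℕ} {b : Fin m → K} {z : K}
  {v : ValuationSubring K}

/-- The valuation ring `v ∩ k(b, z)`, as a subalgebra of `K`. -/
def vK (hov : Ov k v) (b : Fin m → K) (z : K) : Subalgebra k K :=
  valg hov ⊓ (KB k b z).toSubalgebra

theorem mem_vK {hov : Ov k v} {x : K} : x ∈ vK hov b z ↔ x ∈ v ∧ x ∈ KB k b z := Iff.rfl

theorem Abz_le_v (hv : PDiv k b z v) : ∀ x ∈ Abz k b z, x ∈ v := by
  have h1 : Abz k b z ≤ valg hv.ov := by
    refine Algebra.adjoin_le ?_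
    rintro x (rfl | ⟨i, rfl⟩)
    · exact hv.z_mem
    · exact hv.b_mem i
  exact fun x hx => h1 hx

theorem locOf_vK (hv : PDiv k b z v) : LocOf (Abz k b z) (vK hv.ov b z) := by
  constructor
  · intro x hx
    exact ⟨Abz_le_v hv x hx, IntermediateField.algebra_adjoin_le_adjoin k _ hx⟩
  · rintro s ⟨hs, hsK⟩
    obtain ⟨a, ha, t, ht, ht1, rfl⟩ := hv.centre s hsK hs
    have ht0 : t ≠ 0 := by
      rintro rfl
      rw [map_zero] at ht1
      exact zero_ne_one ht1
    refine ⟨a, ha, t, ht, ht0, ⟨?_, ?_⟩, rfl⟩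
    · change t⁻¹ ∈ v
      rw [← v.valuation_le_one_iff, map_inv₀, ht1, inv_one]
    · exact (KB k b z).inv_mem (IntermediateField.algebra_adjoin_le_adjoin k _ ht)

theorem Abz_noetherian (b : Fin m → K) (z : K) : IsNoetherianRing (Abz k b z) := by
  have : Algebra.FiniteType k (Abz k b z) := (Subalgebra.fg_iff_finiteType _).1 (TG.Abz_fg b z)
  exact Algebra.FiniteType.isNoetherianRing k _

/-- The centre of `v` on `v ∩ k(b, z)` has height one. -/
theorem height_cen_vK (hv : PDiv k b z v) : (cen (vK hv.ov b z) v).height = 1 := by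
  classical
  have hA := Abz_noetherian (k := k) b z
  have hN : IsNoetherianRing (vK hv.ov b z) := (locOf_vK hv).isNoetherianRing
  set S := vK hv.ov b z with hS
  have hle : ∀ a ∈ S, a ∈ v := fun a ha => ha.1
  have hmem : ∀ a : S, a ∈ cen S v ↔ v.valuation (a : K) < 1 := fun a => mem_cen hle a
  obtain ⟨T, hT⟩ : (cen S v).FG := IsNoetherian.noetherian _
  -- a nonzero element
  have hne : ∃ t ∈ T, t ≠ 0 := by
    by_contra hcon
    push Not at hcon
    have h0 : cen S v = ⊥ := by
      rw [← hT, Ideal.span_eq_bot]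
      exact hcon
    obtain ⟨x, hx, hxv⟩ := hv.ne
    have hx0 : x ≠ 0 := by
      rintro rfl
      exact hxv v.zero_mem
    have h1 : v.valuation x⁻¹ < 1 := by
      rw [map_inv₀]
      have h2 : 1 < v.valuation x := by
        rw [← not_le, v.valuation_le_one_iff]
        exact hxv
      exact (inv_lt_one₀ (zero_lt_one.trans h2)).2 h2
    have h3 : (⟨x⁻¹, (v.valuation_le_one_iff _).1 h1.le, (KB k b z).inv_mem hx⟩ : S) ∈
        cen S v := (hmem _).2 h1
    rw [h0, Ideal.mem_bot] at h3
    exact inv_ne_zero hx0 (congrArg Subtype.val h3)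
  obtain ⟨t₀, ht₀, ht₀0⟩ := hne
  obtain ⟨π, hπT, hπ⟩ := T.exists_max_image (fun y => v.valuation (y : K)) ⟨t₀, ht₀⟩
  have hπ0 : (π : K) ≠ 0 := by
    intro h0
    have h1 := hπ t₀ ht₀
    rw [h0, map_zero, le_zero_iff, map_eq_zero] at h1
    exact ht₀0 (Subtype.ext h1)
  have hπM : π ∈ cen S v := by rw [← hT]; exact Ideal.subset_span hπT
  have hall : ∀ a ∈ cen S v, v.valuation (a : K) ≤ v.valuation (π : K) := by
    intro a ha
    rw [← hT] at ha
    induction ha using Submodule.span_induction with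
    | mem x hx => exact hπ x hx
    | zero => simp
    | add x y _ _ hx hy => exact (v.valuation.map_add _ _).trans (max_le hx hy)
    | smul c x _ hx =>
      rw [smul_eq_mul, MulMemClass.coe_mul, map_mul]
      exact (mul_le_of_le_one_left' ((v.valuation_le_one_iff _).2 (hle _ c.2))).trans hx
  have hspan : cen S v = Ideal.span {π} := by
    apply le_antisymm
    · intro a ha
      rw [Ideal.mem_span_singleton]
      refine ⟨⟨(a : K) / π, ?_, (KB k b z).div_mem a.2.2 π.2.2⟩, Subtype.ext ?_⟩
      · change (a : K) / π ∈ v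
        rw [← v.valuation_le_one_iff, map_div₀]
        exact div_le_one_of_le₀ (hall a ha) zero_le
      · change (a : K) = π * (a / π)
        field_simp
    · rw [Ideal.span_singleton_le_iff_mem]
      exact hπM
  rw [hspan]
  refine Ideal.height_span_singleton_eq_one_of_mem_nonZeroDivisors
    (mem_nonZeroDivisors_of_ne_zero fun h0 => hπ0 (by rw [h0]; rfl)) fun hu => ?_
  have h1 : cen S v = ⊤ := by rw [hspan, Ideal.span_singleton_eq_top]; exact hu
  exact (cen_prime S v).ne_top h1

/-- The centre of `v` on `k[b, z]` has height one. -/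
theorem height_cen_Abz (hv : PDiv k b z v) : (cen (Abz k b z) v).height = 1 := by
  have h1 := (locOf_vK hv).height_comap (cen (vK hv.ov b z) v)
  rw [height_cen_vK hv] at h1
  have h2 : (cen (vK hv.ov b z) v).comap (Subalgebra.inclusion (locOf_vK hv).le) =
      cen (Abz k b z) v := by
    ext a
    rw [Ideal.mem_comap, mem_cen (S := vK hv.ov b z) (fun a ha => ha.1), mem_cen (Abz_le_v hv)]
    rfl
  rw [← h2]
  exact h1

theorem ncl_le_v (hv : PDiv k b z v) : ∀ x ∈ ncl (Abz k b z), x ∈ v := ncl_mem (Abz_le_v hv)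

/-- **The prime divisors of PROJ are prime divisors of the normalisation of `k[b, z]`.** -/
theorem pdiv_isDiv [PerfectField k] (hK : (⊤ : IntermediateField k K).FG)
    (halg : Algebra.IsAlgebraic (KB k b z) K) (hv : PDiv k b z v) :
    IsDiv (ncl (Abz k b z)) v := by
  have hAalg := TG.Abz_isAlgebraic (b := b) (z := z) halg
  have i1 := TG.isFractionRing_ncl (Abz k b z) hAalg
  have i2 := TG.isIntegrallyClosed_ncl (Abz k b z) hAalg
  have i3 := TG.isNoetherianRing_ncl hK (Abz k b z) (TG.Abz_fg b z) hAalg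
  set B : Subalgebra k K := ncl (Abz k b z) with hB
  let iAB : Algebra (Abz k b z) B := (Subalgebra.inclusion (le_ncl (Abz k b z))).toRingHom.toAlgebra
  have hABtow : IsScalarTower (Abz k b z) B K := IsScalarTower.of_algebraMap_eq fun _ => rfl
  have hABint : Algebra.IsIntegral (Abz k b z) B := by
    refine ⟨fun x => ?_⟩
    have hx : IsIntegral (Abz k b z) (x : K) := x.2
    exact (isIntegral_algHom_iff (IsScalarTower.toAlgHom (Abz k b z) B K)
      Subtype.val_injective).1 hx
  have hcomap : (cen B v).comap (algebraMap (Abz k b z) B) = cen (Abz k b z) v := by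
    ext a
    rw [Ideal.mem_comap, mem_cen (ncl_le_v hv), mem_cen (Abz_le_v hv)]
    rfl
  have h𝔭 := height_cen_Abz hv
  have hne : cen B v ≠ ⊥ := by
    intro h0
    rw [h0] at hcomap
    have h1 : cen (Abz k b z) v = ⊥ := by
      rw [← hcomap, eq_bot_iff]
      intro a ha
      rw [Ideal.mem_comap, Ideal.mem_bot] at ha
      rw [Ideal.mem_bot]
      have h2 : ((algebraMap (Abz k b z) B a : B) : K) = 0 := by rw [ha]; rfl
      exact Subtype.ext h2
    exact Ideal.ne_bot_of_height_eq_one h𝔭 h1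
  have hh : (cen B v).height = 1 := by
    refine height_eq_one_of_forall hne fun Q hQ hlt => ?_
    by_contra hQ0
    obtain ⟨x, hx, hxQ⟩ := SetLike.exists_of_lt hlt
    have h1 : Q.comap (algebraMap (Abz k b z) B) < (cen B v).comap (algebraMap (Abz k b z) B) :=
      Ideal.comap_lt_comap_of_integral_mem_sdiff hlt.le ⟨hx, hxQ⟩
        (Algebra.IsIntegral.isIntegral x)
    rw [hcomap] at h1
    have h2 : Q.comap (algebraMap (Abz k b z) B) ≠ ⊥ := fun h0 =>
      hQ0 (Ideal.eq_bot_of_comap_eq_bot h0)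
    have h3 : (Q.comap (algebraMap (Abz k b z) B)).IsPrime := Ideal.IsPrime.comap _
    have h4 := Ideal.height_add_one_le_of_lt_of_isPrime h1
    rw [h𝔭] at h4
    have h5 : (Q.comap (algebraMap (Abz k b z) B)).height = 0 := by
      have h6 : (Q.comap (algebraMap (Abz k b z) B)).height + 1 ≤ 0 + 1 := by rwa [zero_add]
      exact le_antisymm ((ENat.add_le_add_iff_right (by simp)).1 h6) zero_le
    exact h2 (Ideal.height_eq_zero_iff_eq_bot.1 h5)
  have htop : v ≠ ⊤ := by
    rintro rfl
    obtain ⟨x, -, hx⟩ := hv.ne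
    exact hx trivial
  have hle : valP K (cen B v) hh ≤ v := by
    rintro x ⟨a, s, hs, e⟩
    have hs1 : v.valuation (s : K) = 1 := by
      refine le_antisymm ((v.valuation_le_one_iff _).2 (ncl_le_v hv _ s.2))
        (not_lt.1 fun h2 => hs ?_)
      exact (mem_cen (ncl_le_v hv) s).2 h2
    rw [← v.valuation_le_one_iff]
    have e' : x * (s : K) = (a : K) := e
    have h4 : v.valuation x * v.valuation (s : K) = v.valuation (a : K) := by
      rw [← map_mul, e']
    rw [hs1, mul_one] at h4
    rw [h4]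
    exact (v.valuation_le_one_iff _).2 (ncl_le_v hv _ a.2)
  rw [eq_valP_of_le hh v htop hle]
  exact isDiv_valP _ _

/-- **The prime divisors of PROJ are prime divisors of the local rings of the models.** -/
theorem pdiv_isDiv_NV [PerfectField k] (hK : (⊤ : IntermediateField k K).FG)
    (halg : Algebra.IsAlgebraic (KB k b z) K) (hv : PDiv k b z v) {W : Submodule k K}
    (hW : IsModel W) {V : ValuationSubring K} (hV : Ov k V) (hle : V ≤ v)
    (hgen : ∀ x ∈ insert z (Set.range b), x ∈ RV v W) : IsDiv (NV V W) v := by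
  have h1 := pdiv_isDiv hK halg hv
  have h2 : ncl (Abz k b z) ≤ NV v W := by
    refine (TG.ncl_mono (Algebra.adjoin_le hgen)).trans ?_
    exact le_locV _
  refine ⟨fun a ha => hle (TG.NV_le hV hW a ha), fun x hx => ?_, h1.disc⟩
  obtain ⟨a, ha, s, hs, hs1, e⟩ := h1.loc x hx
  have hs0 : s ≠ 0 := by
    rintro rfl
    rw [map_zero] at hs1
    exact zero_ne_one hs1
  have h3 : x ∈ locV v (NV V W) := by
    rw [locV_NV_of_le hle hV hW]
    have h4 : x = a * s⁻¹ := by rw [← e, mul_assoc, mul_inv_cancel₀ hs0, mul_one]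
    rw [h4]
    exact (NV v W).mul_mem (h2 ha) (TG.NV_inv (h2 hs) hs1)
  obtain ⟨a', ha', s', hs', hs1', rfl⟩ := h3
  have hs0' : s' ≠ 0 := by
    rintro rfl
    rw [map_zero] at hs1'
    exact zero_ne_one hs1'
  exact ⟨a', ha', s', hs', hs1', by field_simp⟩

end PD

section Fin

variable {k K : Type u} [Field k] [Field K] [Algebra k K] {m : ℕ} {b : Fin m → K} {z : K}

theorem ncl_Abz_fg [PerfectField k] (hK : (⊤ : IntermediateField k K).FG) (b : Fin m → K) (z : K)
    (halg : Algebra.IsAlgebraic (KB k b z) K) : (ncl (Abz k b z)).FG := by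
  have h1 : Module.Finite (Abz k b z) (integralClosure (Abz k b z) K) :=
    Pool.Agent.TGh68.finite_integralClosure hK _ (TG.Abz_fg b z) (TG.Abz_isAlgebraic halg)
  have h2 : Algebra.FiniteType k (Abz k b z) :=
    (Subalgebra.fg_iff_finiteType _).1 (TG.Abz_fg b z)
  have h3 : Algebra.FiniteType k (integralClosure (Abz k b z) K) :=
    Algebra.FiniteType.trans h2 (Module.Finite.finiteType (integralClosure (Abz k b z) K))
  exact (Subalgebra.fg_iff_finiteType (ncl (Abz k b z))).2 h3

theorem locFG_ncl [PerfectField k] (hK : (⊤ : IntermediateField k K).FG)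
    (halg : Algebra.IsAlgebraic (KB k b z) K) : LocFG k (ncl (Abz k b z)).toSubring := by
  obtain ⟨G, hG⟩ := ncl_Abz_fg hK b z halg
  refine ⟨G, fun a ha => ?_, fun x hx => ⟨x, ?_, 1, Subalgebra.one_mem _, one_ne_zero, ?_, ?_⟩⟩
  · have h1 : a ∈ Algebra.adjoin k (G : Set K) := ha
    rw [hG] at h1
    exact h1
  · rw [hG]
    exact hx
  · rw [inv_one]
    exact Subring.one_mem _
  · rw [div_one]

theorem isFracS_ncl (halg : Algebra.IsAlgebraic (KB k b z) K) :
    IsFracS (ncl (Abz k b z)).toSubring := by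
  intro x
  obtain ⟨a, ha, s, hs, hs0, e⟩ := TG.exists_div_ncl (Abz k b z) (TG.Abz_isAlgebraic halg x)
  exact ⟨a, ha, s, le_ncl _ hs, hs0, e⟩

/-- **Only finitely many of the prime divisors of PROJ are ramified.** -/
theorem pdiv_unr_finite [PerfectField k] (hK : (⊤ : IntermediateField k K).FG)
    (htr : Algebra.trdeg k K = ((m + 1 : ℕ) : Cardinal))
    (hsep : Algebra.IsSeparable (KB k b z) K) :
    {v : ValuationSubring K | PDiv k b z v ∧ ¬ Unr k (Fin.cons z b : Fin (m + 1) → K) v}.Finite := by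
  have halg : Algebra.IsAlgebraic (KB k b z) K := Algebra.IsSeparable.isAlgebraic _ _
  have hess : Algebra.EssFiniteType k K := IntermediateField.fg_top_iff.1 hK
  have hAalg := TG.Abz_isAlgebraic (b := b) (z := z) halg
  have i1 := TG.isFractionRing_ncl (Abz k b z) hAalg
  have i3 := TG.isNoetherianRing_ncl hK (Abz k b z) (TG.Abz_fg b z) hAalg
  obtain ⟨D, hD⟩ := exists_Dual (k := k) (K := K) (m + 1) htr (Fin.cons z b : Fin (m + 1) → K)
    (by rw [Fin.range_cons]; exact hsep)
  obtain ⟨c, hc, hc0, hcd⟩ := exists_pres_S (locFG_ncl hK halg) (isFracS_ncl halg) D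
  have h1 := finite_div (k := k) (K := K) (S := ncl (Abz k b z)) ⟨c, hc⟩
    (fun h0 => hc0 (congrArg Subtype.val h0))
  refine h1.subset ?_
  rintro v ⟨hv, hur⟩
  have hd := pdiv_isDiv hK halg hv
  refine ⟨hd, ?_⟩
  by_contra hcon
  rw [hd.notMem_cen] at hcon
  have hcv : v.valuation c = 1 := hcon
  apply hur
  intro δ hδ x hx
  rw [hD.span δ x]
  refine sum_mem fun j _ => v.mul_mem _ _ (hδ j) ?_
  have h2 : (c • D j) x ∈ v := Pres.loc (isLocS_of_isDiv hd) (hcd j) x hx
  rw [Derivation.smul_apply, smul_eq_mul, ← v.valuation_le_one_iff, map_mul, hcv, one_mul,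
    v.valuation_le_one_iff] at h2
  exact h2

end Fin

section GP

variable {k K : Type u} [Field k] [Field K] [Algebra k K] {m : ℕ} {W : Submodule k K}
  {h : Fin (m + 2) → K} {Θ : Set (ValuationSubring K)} {d : ℕ} {b : Fin m → K} {z : K}
  {v V : ValuationSubring K}

/-- The ratios lie in the local rings at the coarser valuation rings. -/
theorem gpOut_ratio_mem_RV (H : GPOut W h Θ d) (hV : ZDim k V) (hle : V ≤ v)
    {j : Fin (m + 2)} (hj : ∀ i, h i / h j ∈ v) (i : Fin (m + 2)) : h i / h j ∈ RV v W := by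
  have hv : Ov k v := fun c => hle (hV.ov c)
  obtain ⟨N, hN, hmem, hall⟩ := H.bpf
  obtain ⟨M, rfl⟩ := Nat.exists_eq_succ_of_ne_zero hN.ne'
  obtain ⟨j', hj'⟩ := hall V hV
  have hmin : IsMin v (W ^ (M + 1)) (h j) := by
    refine ⟨hmem j, H.ne j, fun g hg => ?_⟩
    have h1 : g / h j = (g / h j') * (h j' / h j) := by
      rw [div_mul_div_cancel₀ (H.ne j')]
    rw [h1]
    exact v.mul_mem _ _ (hle (hj'.div g hg)) (hj j')
  have h1 := TG.div_mem_RV hmin (hmem i)
  rwa [TG.RV_pow hv H.model] at h1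

/-- The coordinates of PROJ and the ratios. -/
theorem ratio_cases {P : K → Prop} (hne : h 0 ≠ 0)
    (hb : ∀ i, b i = h i.succ.castSucc / h 0)
    (hz : z = h (Fin.last (m + 1)) / h 0) (h1 : P 1) (h2 : P z) (h3 : ∀ i, P (b i))
    (i : Fin (m + 2)) : P (h i / h 0) := by
  induction i using Fin.lastCases with
  | last => rw [← hz]; exact h2
  | cast i =>
    induction i using Fin.cases with
    | zero =>
      rw [Fin.castSucc_zero, div_self hne]
      exact h1
    | succ i => rw [← hb]; exact h3 i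

theorem gpOut_ratio_mem_v (H : GPOut W h Θ d) (hb : ∀ i, b i = h i.succ.castSucc / h 0)
    (hz : z = h (Fin.last (m + 1)) / h 0) (hv : PDiv k b z v) (i : Fin (m + 2)) :
    h i / h 0 ∈ v :=
  ratio_cases (P := fun x => x ∈ v) (H.ne 0) hb hz v.one_mem hv.z_mem hv.b_mem i

/-- **R13 (c1)**: a prime divisor of PROJ is a prime divisor of the local ring of the normalised
model at every zero-dimensional `V ≤ v`. -/
theorem gpOut_isDiv_of_pdiv [PerfectField k] (H : GPOut W h Θ d)
    (hK : (⊤ : IntermediateField k K).FG) (hb : ∀ i, b i = h i.succ.castSucc / h 0)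
    (hz : z = h (Fin.last (m + 1)) / h 0) (halg : Algebra.IsAlgebraic (KB k b z) K)
    (hv : PDiv k b z v) (hV : ZDim k V) (hle : V ≤ v) : IsDiv (NV V W) v := by
  have h1 := gpOut_ratio_mem_v H hb hz hv
  have h2 := gpOut_ratio_mem_RV H hV hle h1
  refine pdiv_isDiv_NV hK halg hv H.model hV.ov hle ?_
  rintro x (rfl | ⟨i, rfl⟩)
  · rw [hz]; exact h2 _
  · rw [hb]; exact h2 _

/-- The condition `Unr` in the coordinates of PROJ. -/
theorem gpOut_unr_iff (H : GPOut W h Θ d) (hb : ∀ i, b i = h i.succ.castSucc / h 0)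
    (hz : z = h (Fin.last (m + 1)) / h 0) (v : ValuationSubring K) :
    Unr k (Fin.cons z b : Fin (m + 1) → K) v ↔ Unr k (fun i => h i / h 0) v := by
  constructor
  · refine unr_congr fun D hD i => ?_
    induction i using Fin.cases with
    | zero =>
      rw [Fin.cons_zero, hz]
      exact hD _
    | succ i =>
      rw [Fin.cons_succ, hb]
      exact hD _
  · refine unr_congr fun D hD i => ?_
    refine ratio_cases (P := fun x => D x ∈ v) (H.ne 0) hb hz ?_ ?_ ?_ i
    · rw [Derivation.map_one_eq_zero]; exact v.zero_mem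
    · exact hD 0
    · intro i
      exact hD i.succ

/-- **R13 (c2)**: the ramified prime divisors of PROJ form a finite set. -/
theorem gpOut_unr_finite [PerfectField k] (H : GPOut W h Θ d)
    (hK : (⊤ : IntermediateField k K).FG) (htr : Algebra.trdeg k K = ((m + 1 : ℕ) : Cardinal))
    (hb : ∀ i, b i = h i.succ.castSucc / h 0) (hz : z = h (Fin.last (m + 1)) / h 0)
    (hsep : Algebra.IsSeparable (KB k b z) K) :
    {v : ValuationSubring K | PDiv k b z v ∧ ¬ Unr k (fun i => h i / h 0) v}.Finite := by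
  refine (pdiv_unr_finite hK htr hsep).subset ?_
  rintro v ⟨hv, hur⟩
  exact ⟨hv, fun h1 => hur ((gpOut_unr_iff H hb hz v).1 h1)⟩

end GP

end Pool.Agent.TG21
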