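import Pool.Agent.Lib.TG_h81.Proj

/-!
# TANK G, toolbox (T3): the residue field of a horizontal prime divisor

`F ⊆ K` fields, `v` a valuation ring of `K` containing `F`, `z ∈ v`, `K` finite over `F(z)`,
`F(z) ⊄ v`.  Then the residue field `M` of `v` is finite over `F`, and
`v (g z) < 1` for the minimal polynomial `g` over `F` of the residue of `z`.
-/

set_option autoImplicit false

namespace Pool.Agent.TG21

open Polynomial

universe u

/-! ## Presentations of the residue field -/

section IsRes

variable {F K : Type*} [Field F] [Field K] [Algebra F K]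

/-- `M` with `π : v → M` is the residue field of `v` (trivial on `F`), as a field over `F`. -/
structure IsRes (v : ValuationSubring K) (M : Type*) [Field M] [Algebra F M] (π : v →+* M) :
    Prop where
  surj : Function.Surjective π
  comm : ∀ c : F, ∃ h : algebraMap F K c ∈ v, π ⟨algebraMap F K c, h⟩ = algebraMap F M c

variable {v : ValuationSubring K} {M : Type*} [Field M] {π : v →+* M}

theorem val_eq_one_iff (x : v) : v.valuation (x : K) = 1 ↔ IsUnit x := by
  rw [ValuationSubring.valuation_eq_one_iff]

theorem pi_eq_zero (hs : Function.Surjective π) (x : v) : π x = 0 ↔ v.valuation (x : K) < 1 := by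
  constructor
  · intro h
    refine lt_of_le_of_ne ((v.valuation_le_one_iff _).2 x.2) fun h1 => ?_
    have h2 : IsUnit x := (val_eq_one_iff x).1 h1
    exact (h2.map π).ne_zero h
  · intro h
    by_contra h0
    obtain ⟨y, hy⟩ := hs (π x)⁻¹
    have h1 : π (1 - x * y) = 0 := by
      rw [map_sub, map_one, map_mul, hy, mul_inv_cancel₀ h0, sub_self]
    have h2 : v.valuation ((x * y : v) : K) < 1 := by
      rw [MulMemClass.coe_mul, map_mul]
      exact lt_of_le_of_lt (mul_le_of_le_one_right' ((v.valuation_le_one_iff _).2 y.2)) h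
    have h3 : v.valuation ((1 - x * y : v) : K) = 1 := by
      have h4 : ((1 - x * y : v) : K) = 1 - ((x * y : v) : K) := rfl
      rw [h4]
      exact Valuation.map_one_sub_of_lt _ h2
    have h5 : IsUnit (1 - x * y) := (val_eq_one_iff _).1 h3
    exact (h5.map π).ne_zero h1

theorem pi_ne_zero (hs : Function.Surjective π) (x : v) : π x ≠ 0 ↔ v.valuation (x : K) = 1 := by
  rw [Ne, pi_eq_zero hs, not_lt]
  exact ⟨fun h => le_antisymm ((v.valuation_le_one_iff _).2 x.2) h, fun h => h.ge⟩

end IsRes

section Gen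

variable {F K : Type*} [Field F] [Field K] [Algebra F K] {v : ValuationSubring K} {M : Type*}
  [Field M] [Algebra F M] {π : v →+* M}

theorem IsRes.mem (h : IsRes (F := F) v M π) (c : F) : algebraMap F K c ∈ v := (h.comm c).1

theorem IsRes.pi_alg (h : IsRes (F := F) v M π) (c : F) (hc : algebraMap F K c ∈ v) :
    π ⟨algebraMap F K c, hc⟩ = algebraMap F M c := (h.comm c).2

/-- Polynomials in `z` over `F` lie in `v`. -/
theorem IsRes.aeval_mem (h : IsRes (F := F) v M π) {z : K} (hz : z ∈ v) (p : F[X]) :
    aeval z p ∈ v := by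
  rw [aeval_eq_sum_range]
  refine sum_mem fun i _ => ?_
  rw [Algebra.smul_def]
  exact mul_mem (h.mem _) (pow_mem hz i)

theorem IsRes.pi_aeval (h : IsRes (F := F) v M π) {z : K} (hz : z ∈ v) (p : F[X]) :
    π ⟨aeval z p, h.aeval_mem hz p⟩ = aeval (π ⟨z, hz⟩) p := by
  have h1 : (⟨aeval z p, h.aeval_mem hz p⟩ : v) =
      ∑ i ∈ Finset.range (p.natDegree + 1), (⟨algebraMap F K (p.coeff i), h.mem _⟩ : v) *
        (⟨z, hz⟩ : v) ^ i := by
    apply Subtype.ext
    change aeval z p = _
    rw [aeval_eq_sum_range]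
    push_cast
    refine Finset.sum_congr rfl fun i _ => ?_
    rw [Algebra.smul_def]
  rw [h1, map_sum, aeval_eq_sum_range]
  refine Finset.sum_congr rfl fun i _ => ?_
  rw [map_mul, map_pow, h.pi_alg, Algebra.smul_def]

/-- **The minimal polynomial of the residue of `z` vanishes on the divisor.** -/
theorem IsRes.minpoly_lt (h : IsRes (F := F) v M π) {z : K} (hz : z ∈ v) :
    v.valuation (aeval z (minpoly F (π ⟨z, hz⟩))) < 1 := by
  have h1 := (pi_eq_zero h.surj ⟨aeval z (minpoly F (π ⟨z, hz⟩)), h.aeval_mem hz _⟩).1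
    (by rw [h.pi_aeval hz, minpoly.aeval])
  exact h1

/-- An element of `F(z)`, with numerator and denominator coprime. -/
theorem exists_coprime {z : K} {p q : F[X]} {c : K} (hc : c = aeval z p / aeval z q) :
    ∃ p' q' : F[X], IsCoprime p' q' ∧ aeval z q' ≠ 0 ∧ c = aeval z p' / aeval z q' := by
  classical
  by_cases hq : aeval z q = 0
  · refine ⟨0, 1, isCoprime_zero_left.2 isUnit_one, ?_, ?_⟩
    · rw [map_one]; exact one_ne_zero
    · rw [hc, hq, div_zero, map_zero, zero_div]
  · have hq0 : q ≠ 0 := fun h => hq (by rw [h, map_zero])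
    have h1 : IsCoprime (p / EuclideanDomain.gcd p q) (q / EuclideanDomain.gcd p q) := by
      let _ := EuclideanDomain.gcdMonoid F[X]
      exact isCoprime_div_gcd_div_gcd hq0
    have h2 : EuclideanDomain.gcd p q * (q / EuclideanDomain.gcd p q) = q :=
      EuclideanDomain.mul_div_cancel' (fun h => hq0 (EuclideanDomain.gcd_eq_zero_iff.1 h).2)
        (EuclideanDomain.gcd_dvd_right p q)
    have h3 : EuclideanDomain.gcd p q * (p / EuclideanDomain.gcd p q) = p :=
      EuclideanDomain.mul_div_cancel' (fun h => hq0 (EuclideanDomain.gcd_eq_zero_iff.1 h).2)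
        (EuclideanDomain.gcd_dvd_left p q)
    refine ⟨_, _, h1, ?_, ?_⟩
    · intro h4
      apply hq
      rw [← h2, map_mul, h4, mul_zero]
    · have h5 : aeval z (EuclideanDomain.gcd p q) ≠ 0 := by
        intro h4
        apply hq
        rw [← h2, map_mul, h4, zero_mul]
      have h6 : aeval z p = aeval z (EuclideanDomain.gcd p q) *
          aeval z (p / EuclideanDomain.gcd p q) := by rw [← map_mul, h3]
      have h7 : aeval z q = aeval z (EuclideanDomain.gcd p q) *
          aeval z (q / EuclideanDomain.gcd p q) := by rw [← map_mul, h2]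
      rw [hc, h6, h7, mul_div_mul_left _ _ h5]

/-- An element of `F(z)` in `v` has a denominator which is a unit. -/
theorem IsRes.exists_unit_den (h : IsRes (F := F) v M π) {z : K} (hz : z ∈ v) {p q : F[X]}
    {c : K} (hc : c = aeval z p / aeval z q) (hcv : c ∈ v) :
    ∃ p' q' : F[X], v.valuation (aeval z q') = 1 ∧ c = aeval z p' / aeval z q' := by
  obtain ⟨p', q', h1, h2, h3⟩ := exists_coprime hc
  refine ⟨p', q', ?_, h3⟩
  refine le_antisymm ((v.valuation_le_one_iff _).2 (h.aeval_mem hz q')) (not_lt.1 fun h4 => ?_)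
  have h5 : aeval z p' = c * aeval z q' := by
    rw [h3, div_mul_cancel₀ _ h2]
  have h6 : v.valuation (aeval z p') < 1 := by
    rw [h5, map_mul]
    exact lt_of_le_of_lt (mul_le_of_le_one_left' ((v.valuation_le_one_iff _).2 hcv)) h4
  obtain ⟨a, b, hab⟩ := h1
  have h7 : aeval z a * aeval z p' + aeval z b * aeval z q' = 1 := by
    rw [← map_mul, ← map_mul, ← map_add, hab, map_one]
  have h8 : v.valuation (aeval z a * aeval z p' + aeval z b * aeval z q') < 1 := by
    refine Valuation.map_add_lt _ ?_ ?_
    · rw [map_mul]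
      exact lt_of_le_of_lt (mul_le_of_le_one_left'
        ((v.valuation_le_one_iff _).2 (h.aeval_mem hz a))) h6
    · rw [map_mul]
      exact lt_of_le_of_lt (mul_le_of_le_one_left'
        ((v.valuation_le_one_iff _).2 (h.aeval_mem hz b))) h4
  rw [h7, map_one] at h8
  exact lt_irrefl _ h8

/-- The residues of the elements of `F(z)` in `v` lie in `F(residue of z)`. -/
theorem IsRes.pi_mem_adjoin (h : IsRes (F := F) v M π) {z : K} (hz : z ∈ v) {p q : F[X]}
    {c : K} (hc : c = aeval z p / aeval z q) (hcv : c ∈ v) :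
    π ⟨c, hcv⟩ ∈ IntermediateField.adjoin F {π ⟨z, hz⟩} := by
  obtain ⟨p', q', h1, h2⟩ := h.exists_unit_den hz hc hcv
  rw [IntermediateField.mem_adjoin_simple_iff]
  refine ⟨p', q', ?_⟩
  have h3 : aeval z q' ≠ 0 := fun h4 => by
    rw [h4, map_zero] at h1
    exact zero_ne_one h1
  have h4 : (⟨c, hcv⟩ : v) * ⟨aeval z q', h.aeval_mem hz q'⟩ = ⟨aeval z p', h.aeval_mem hz p'⟩ := by
    apply Subtype.ext
    change c * aeval z q' = aeval z p'
    rw [h2, div_mul_cancel₀ _ h3]
  have h5 := congrArg π h4
  rw [map_mul, h.pi_aeval hz, h.pi_aeval hz] at h5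
  have h6 : aeval (π ⟨z, hz⟩) q' ≠ 0 := by
    rw [← h.pi_aeval hz, pi_ne_zero h.surj]
    exact h1
  rw [← h5, mul_div_cancel_right₀ _ h6]

/-- The residue of `z` is algebraic over `F`. -/
theorem IsRes.isAlgebraic (h : IsRes (F := F) v M π) {z : K} (hz : z ∈ v) {p q : F[X]}
    {c : K} (hc : c = aeval z p / aeval z q) (hcv : c ∉ v) : IsAlgebraic F (π ⟨z, hz⟩) := by
  have hq : aeval z q ≠ 0 := fun h0 => hcv (by rw [hc, h0, div_zero]; exact v.zero_mem)
  refine ⟨q, fun h0 => hq (by rw [h0, map_zero]), ?_⟩
  rw [← h.pi_aeval hz, pi_eq_zero h.surj]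
  refine lt_of_le_of_ne ((v.valuation_le_one_iff _).2 (h.aeval_mem hz q)) fun h1 => hcv ?_
  rw [← v.valuation_le_one_iff, hc, map_div₀]
  change v.valuation (aeval z q) = 1 at h1
  rw [h1, div_one]
  exact (v.valuation_le_one_iff _).2 (h.aeval_mem hz p)

/-- Residues which are independent over `F(residue of z)` lift to elements independent over
`F(z)`. -/
theorem IsRes.linearIndependent (h : IsRes (F := F) v M π) {z : K} (hz : z ∈ v)
    (E : Subfield K) (hE : ∀ c ∈ E, ∃ p q : F[X], c = aeval z p / aeval z q) {ι : Type*} [Finite ι]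
    (x : ι → v)
    (hx : LinearIndependent (IntermediateField.adjoin F {π ⟨z, hz⟩}) fun i => π (x i)) :
    LinearIndependent E fun i => (x i : K) := by
  classical
  have := Fintype.ofFinite ι
  rw [Fintype.linearIndependent_iff] at hx ⊢
  intro c hc
  by_contra hcon
  push Not at hcon
  obtain ⟨i₀, hi₀⟩ := hcon
  obtain ⟨j, -, hj⟩ := Finset.exists_max_image Finset.univ (fun i => v.valuation ((c i : E) : K))
    ⟨i₀, Finset.mem_univ _⟩
  have hj0 : ((c j : E) : K) ≠ 0 := by
    intro h0
    have h1 := hj i₀ (Finset.mem_univ _)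
    rw [h0, map_zero, le_zero_iff, map_eq_zero] at h1
    exact hi₀ (Subtype.ext h1)
  have h1 : ∀ i, ((c i : E) : K) / c j ∈ v := by
    intro i
    rw [← v.valuation_le_one_iff, map_div₀]
    exact div_le_one_of_le₀ (hj i (Finset.mem_univ _)) zero_le
  have h2 : ∀ i, ∃ p q : F[X], ((c i : E) : K) / c j = aeval z p / aeval z q := fun i =>
    hE _ (E.div_mem (c i).2 (c j).2)
  have h3 : ∀ i, π ⟨((c i : E) : K) / c j, h1 i⟩ ∈ IntermediateField.adjoin F {π ⟨z, hz⟩} := by
    intro i
    obtain ⟨p, q, h4⟩ := h2 i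
    exact h.pi_mem_adjoin hz h4 (h1 i)
  have h4 := hx (fun i => ⟨_, h3 i⟩) (by
    have h5 : (∑ i, (⟨((c i : E) : K) / c j, h1 i⟩ : v) * x i) = 0 := by
      apply Subtype.ext
      push_cast
      have h6 : ∑ i, ((c i : E) : K) / c j * (x i : K) = (∑ i, ((c i : E) : K) * (x i : K)) / c j := by
        rw [Finset.sum_div]
        exact Finset.sum_congr rfl fun i _ => by ring
      rw [h6]
      have h7 : ∑ i, ((c i : E) : K) * (x i : K) = 0 := hc
      rw [h7, zero_div]
    have h8 := congrArg π h5
    rw [map_sum, map_zero] at h8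
    rw [← h8]
    refine Finset.sum_congr rfl fun i _ => ?_
    rw [map_mul]
    rfl) j
  have h5 : π ⟨((c j : E) : K) / c j, h1 j⟩ = 0 := congrArg Subtype.val h4
  have h6 : (⟨((c j : E) : K) / c j, h1 j⟩ : v) = 1 := Subtype.ext (div_self hj0)
  rw [h6, map_one] at h5
  exact one_ne_zero h5

/-- **The residue field is finite over `F`.** -/
theorem IsRes.finiteDimensional (h : IsRes (F := F) v M π) {z : K} (hz : z ∈ v)
    (E : Subfield K) (hE : ∀ c ∈ E, ∃ p q : F[X], c = aeval z p / aeval z q)
    [FiniteDimensional E K] (hne : ∃ c ∈ E, c ∉ v) : FiniteDimensional F M := by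
  classical
  obtain ⟨c, hcE, hcv⟩ := hne
  obtain ⟨p, q, hc⟩ := hE c hcE
  have halg := h.isAlgebraic hz hc hcv
  have h1 : FiniteDimensional F (IntermediateField.adjoin F {π ⟨z, hz⟩}) :=
    IntermediateField.adjoin.finiteDimensional halg.isIntegral
  have h2 : FiniteDimensional (IntermediateField.adjoin F {π ⟨z, hz⟩}) M := by
    have h3 : Module.rank (IntermediateField.adjoin F {π ⟨z, hz⟩}) M ≤ (Module.finrank E K : ℕ) := by
      refine rank_le fun s hs => ?_
      have h4 : ∀ i : s, ∃ x : v, π x = (i : M) := fun i => h.surj _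
      choose x hx using h4
      have h5 := h.linearIndependent hz E hE x (by
        have h6 : (fun i => π (x i)) = fun i : s => (i : M) := funext hx
        rw [h6]
        exact hs)
      have h7 := h5.fintype_card_le_finrank
      rwa [Fintype.card_coe] at h7
    exact Module.rank_lt_aleph0_iff.1 (lt_of_le_of_lt h3 Cardinal.natCast_lt_aleph0)
  exact Module.Finite.trans (IntermediateField.adjoin F {π ⟨z, hz⟩}) M

end Gen

/-! ## Existence -/

section Exist

variable {F K : Type u} [Field F] [Field K] [Algebra F K]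

theorem exists_isRes (v : ValuationSubring K) (hF : ∀ c : F, algebraMap F K c ∈ v) :
    ∃ (M : Type u) (_ : Field M) (_ : Algebra F M) (π : v →+* M), IsRes (F := F) v M π := by
  let φ : F →+* v := (algebraMap F K).codRestrict v hF
  let _ : Algebra F (IsLocalRing.ResidueField v) := ((IsLocalRing.residue v).comp φ).toAlgebra
  exact ⟨IsLocalRing.ResidueField v, inferInstance, inferInstance, IsLocalRing.residue v,
    IsLocalRing.residue_surjective, fun c => ⟨hF c, rfl⟩⟩

end Exist

/-! ## The residue field of a prime divisor which is trivial on `L₀ = k(b)` -/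

section PDiv

open Pool.Agent.TG (LB KB PDiv)

variable {k K : Type u} [Field k] [Field K] [Algebra k K] {m : ℕ} {b : Fin m → K} {z : K}

/-- The elements of `k(b, z)` are quotients of polynomials in `z` over `k(b)`. -/
theorem exists_div {c : K} (hc : c ∈ KB k b z) :
    ∃ p q : (LB k b)[X], c = aeval z p / aeval z q := by
  have h1 : KB k b z ≤ (IntermediateField.adjoin (LB k b) {z}).restrictScalars k := by
    rw [KB, IntermediateField.adjoin_le_iff]
    intro x hx
    rcases hx with h | h
    · rw [h]
      exact IntermediateField.mem_adjoin_simple_self _ z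
    · exact (IntermediateField.adjoin (LB k b) {z}).algebraMap_mem
        ⟨x, IntermediateField.subset_adjoin _ _ h⟩
  exact (IntermediateField.mem_adjoin_simple_iff _ _).1 (h1 hc)

/-- `L₀ ≤ v` in the form needed for `IsRes`. -/
theorem exists_isRes_LB (v : ValuationSubring K) (hL : ∀ x ∈ LB k b, x ∈ v) :
    ∃ (M : Type u) (_ : Field M) (_ : Algebra (LB k b) M) (π : v →+* M),
      IsRes (F := LB k b) v M π :=
  exists_isRes v fun c => hL _ c.2

/-- The coordinates `b`, as elements of `L₀`. -/
def bL (k : Type u) {K : Type u} [Field k] [Field K] [Algebra k K] {m : ℕ} (b : Fin m → K)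
    (i : Fin m) : LB k b := ⟨b i, IntermediateField.subset_adjoin _ _ ⟨i, rfl⟩⟩

/-- `b` is a transcendence basis of `L₀`. -/
theorem isTranscendenceBasis_LB (hb : AlgebraicIndependent k b) :
    IsTranscendenceBasis k (bL k b) := by
  rw [isTranscendenceBasis_iff_algebraicIndependent_isAlgebraic]
  constructor
  · have h1 : AlgebraicIndependent k ((LB k b).val ∘ bL k b) := hb
    exact h1.of_comp _
  · constructor
    intro x
    obtain ⟨r, hr, s, hs, hx⟩ := (IntermediateField.mem_adjoin_iff_div).1 x.2
    have h1 : Algebra.adjoin k (Set.range b) =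
        (Algebra.adjoin k (Set.range (bL k b))).map (LB k b).val := by
      rw [AlgHom.map_adjoin, ← Set.range_comp]
      rfl
    rw [h1] at hr hs
    obtain ⟨r', hr', hr''⟩ := hr
    obtain ⟨s', hs', hs''⟩ := hs
    have h2 : x = r' * s'⁻¹ := by
      apply Subtype.ext
      rw [hx, ← hr'', ← hs'', div_eq_mul_inv]
      rfl
    rw [h2]
    exact (isAlgebraic_algebraMap
      (⟨r', hr'⟩ : Algebra.adjoin k (Set.range (bL k b)))).mul
      (isAlgebraic_algebraMap (⟨s', hs'⟩ : Algebra.adjoin k (Set.range (bL k b)))).inv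

section

variable {v : ValuationSubring K} {M : Type u} [Field M] [Algebra (LB k b) M] {π : v →+* M}

/-- **The residue field of a prime divisor trivial on `L₀` is finite over `L₀`.** -/
theorem res_finite (hv : PDiv k b z v) (h : IsRes (F := LB k b) v M π)
    (hfin : FiniteDimensional (KB k b z) K) : FiniteDimensional (LB k b) M := by
  obtain ⟨x, hx, hxv⟩ := hv.ne
  have : FiniteDimensional (KB k b z).toSubfield K := hfin
  exact h.finiteDimensional hv.z_mem (KB k b z).toSubfield (fun c hc => exists_div hc)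
    ⟨x, hx, hxv⟩

/-- **The minimal polynomial of the residue of `z` vanishes at `v`.** -/
theorem res_minpoly_lt (hv : PDiv k b z v) (h : IsRes (F := LB k b) v M π) :
    v.valuation (aeval z (minpoly (LB k b) (π ⟨z, hv.z_mem⟩))) < 1 :=
  h.minpoly_lt hv.z_mem

variable [Algebra k M] [IsScalarTower k (LB k b) M]

theorem essFiniteType_LB (b : Fin m → K) : Algebra.EssFiniteType k (LB k b) := by
  rw [IntermediateField.essFiniteType_iff]
  exact IntermediateField.fg_adjoin_of_finite (Set.finite_range b)

/-- The residue field is finitely generated over `k`. -/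
theorem res_fg (hv : PDiv k b z v) (h : IsRes (F := LB k b) v M π)
    (hfin : FiniteDimensional (KB k b z) K) : (⊤ : IntermediateField k M).FG := by
  have h1 := res_finite hv h hfin
  have h2 := essFiniteType_LB (k := k) b
  have h3 : Algebra.EssFiniteType k M := Algebra.EssFiniteType.comp k (LB k b) M
  exact IntermediateField.fg_top k M

/-- The residue field has transcendence degree `m` over `k`. -/
theorem res_trdeg (hb : AlgebraicIndependent k b) (hv : PDiv k b z v)
    (h : IsRes (F := LB k b) v M π) (hfin : FiniteDimensional (KB k b z) K) :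
    Algebra.trdeg k M = (m : Cardinal) := by
  have h1 := res_finite hv h hfin
  have h2 := isTranscendenceBasis_LB hb
  have h3 := (h2.algebraMap_comp (A := M)).lift_cardinalMk_eq_trdeg
  rw [Cardinal.mk_fin, Cardinal.lift_natCast, Cardinal.lift_id'.{0, u}] at h3
  exact h3.symm

end

/-- **(T3)**: existence of the residue field, all properties. -/
theorem exists_res (v : ValuationSubring K) (hv : PDiv k b z v) (hL : ∀ x ∈ LB k b, x ∈ v)
    (hb : AlgebraicIndependent k b) (hfin : FiniteDimensional (KB k b z) K) :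
    ∃ (M : Type u) (_ : Field M) (_ : Algebra k M) (_ : Algebra (LB k b) M) (π : v →+* M),
      IsScalarTower k (LB k b) M ∧ IsRes (F := LB k b) v M π ∧ FiniteDimensional (LB k b) M ∧
      (⊤ : IntermediateField k M).FG ∧ Algebra.trdeg k M = (m : Cardinal) ∧
      v.valuation (aeval z (minpoly (LB k b) (π ⟨z, hv.z_mem⟩))) < 1 := by
  obtain ⟨M, i1, i2, π, h⟩ := exists_isRes_LB v hL
  let i3 : Algebra k M := ((algebraMap (LB k b) M).comp (algebraMap k (LB k b))).toAlgebra
  have i4 : IsScalarTower k (LB k b) M := IsScalarTower.of_algebraMap_eq fun _ => rfl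
  exact ⟨M, i1, i3, i2, π, i4, h, res_finite hv h hfin, res_fg hv h hfin,
    res_trdeg hb hv h hfin, res_minpoly_lt hv h⟩

end PDiv

end Pool.Agent.TG21
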